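import Pool.Agent.H8.UN.Targets

/-!
# One formula for two or more special relations
-/

set_option autoImplicit false

namespace Pool.Agent.H8.UN

open Pool.Agent.H69.Sp Pool.Agent.H69.Mt Pool.Agent.H16.TO Pool.Agent.H8.PL Pool.Agent.H8.DI

/-- from all positive numbers to the numbers above three -/
theorem ge4 (hF4 : N_F4) (g : ℕ → ℕ) (X : Set ℕ) (h : IsSpectrum {n | 0 < n ∧ g n ∈ X}) :
    IsSpectrum {n | 4 ≤ n ∧ g n ∈ X} := by
  have e : {n : ℕ | 4 ≤ n ∧ g n ∈ X} = {n | 4 ≤ n ∧ n ∈ {n | 0 < n ∧ g n ∈ X}} := by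
    ext n
    simp only [Set.mem_ofPred_eq]
    constructor
    · rintro ⟨g1, g2⟩
      exact ⟨g1, by omega, g2⟩
    · rintro ⟨g1, _, g2⟩
      exact ⟨g1, g2⟩
  rw [e]
  exact hF4 _ h

theorem pf_ok (hRE : N_RE) (hXS : N_XS) (hF4 : N_F4) (hHD : K_HD) (hSK : K_SK) (hPB : K_PB)
    (hP : T_PB) (hPO : K_PO) : N_OK := by
  intro l τ hl
  obtain ⟨φ, r, hr, h⟩ := hHD l τ hl X0 hXS
  refine ⟨φ, fun hA => ?_, fun h' => h' _ (hSK l τ φ)⟩
  rcases h with h | h
  · exact hRE (specK l τ φ) (fun n => 2 * r * n ^ r)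
      (fun X hX => ge4 hF4 _ X (hP X hX (2 * r) r (by omega) hr)) (fun n hn => by positivity)
      (fun n hn => h n (by omega)) hA
  · refine hRE (specK l τ φ) (fun n => pol (n ^ r)) (fun X hX => ge4 hF4 _ X (hPB X hX r hr))
      (fun n hn => ?_) (fun n hn => h n (by omega)) hA
    exact lt_of_lt_of_le (Nat.pow_pos (by omega)) (hPO.2.2.1 (n ^ r))

end Pool.Agent.H8.UN
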