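import Pool.Agent.H8.UN.XS
import Pool.Agent.H42.UN.FS
import Pool.Agent.H59.UN.CO
import Pool.Agent.H19.UN.F4
import Pool.Agent.H19.UN.OS
import Pool.Agent.H19.UN.UR
import Pool.Agent.H54.UN.PE
import Pool.Agent.H54.UN.RE
import Pool.Agent.H8.UN.OK
import Pool.Agent.H69.DI.DI
import Pool.Agent.H8.DI.All
import Pool.Agent.H8.PU.All

/-!
# One formula carries the whole question: all modules put together
-/

set_option autoImplicit false

namespace Pool.Agent.H8.UN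

open Pool.Agent Pool.Agent.H8.PL Pool.Agent.H16.TO Pool.Agent.H8.DI Pool.Agent.H8.PU

theorem n_ur : N_UR := H19.UN.pf_ur z_sq (H59.UN.pf_co H42.UN.pf_fs)

theorem n_re : N_RE := H54.UN.pf_re n_ur H54.UN.pf_pe

theorem n_op : N_OP := H54.UN.pf_op n_re pf_xs y_p1 y_sp H51.PU.pf_PB

theorem n_os : N_OS :=
  H19.UN.pf_os n_re pf_xs H19.UN.pf_f4 t_q2 t_s1 H84.TW.pf_pb H89.TO.pf_cd H3.TW.pf_ky
    H47.TW.pf_su

theorem n_ok : N_OK :=
  pf_ok n_re pf_xs H19.UN.pf_f4 k_hd pf_sk DI.pf_pb H84.TW.pf_pb H77.DI.pf_po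

theorem k_di : K_DI := H69.DI.pf_di k_tm k_hd pf_sk DI.pf_pb H84.TW.pf_pb H77.DI.pf_po

end Pool.Agent.H8.UN
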