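import Pool.Agent.H8.DI.Targets

/-!
# One formula carries the whole question: targets

A universal spectrum: the number `((e + 1) N)² + e`, `e = pair (pair c d) q`, is in `X0` iff the square
`N × N` has a tiling with the tiles `0, …, q - 1` and the conditions coded by `c` and `d`.
-/

set_option autoImplicit false

namespace Pool.Agent.H8.UN

open Pool.Agent.H69.Sp Pool.Agent.H69.Mt Pool.Agent.H16.TO Pool.Agent.H8.PL Pool.Agent.H8.DI
open Pool.Agent.H8.PU

/-- `i` is in the finite set coded by `c` and `d` -/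
def bt (c d i : ℕ) : Prop := 1 + (i + 1) * d ∣ c

/-- the number of a bit pattern -/
def bn (a b c d : Bool) : ℕ := 8 * a.toNat + 4 * b.toNat + 2 * c.toNat + d.toNat

/-- the square `N × N` has a tiling with the tiles `0, …, q - 1` and the conditions coded by `c` and
`d` -/
def TU (c d q N : ℕ) : Prop := ∃ t : ℕ → ℕ → ℕ, (∀ x < N, ∀ y < N, t x y < q) ∧
  GridF (fun z l b u i => bt c d (3 * (i + q * bn z l b u) + 2)) (fun i j => bt c d (3 * (i + q * j)))
    (fun i j => bt c d (3 * (i + q * j) + 1)) N N t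

/-- the code -/
def cde (c d q : ℕ) : ℕ := Nat.pair (Nat.pair c d) q

/-- the universal spectrum -/
def X0 : Set ℕ := {x | ∃ c d q N, 0 < N ∧ x = ((cde c d q + 1) * N) ^ 2 + cde c d q ∧ TU c d q N}

/-- finite sets of numbers are coded -/
def N_FS : Prop := ∀ (k : ℕ) (p : ℕ → Prop), ∃ c d : ℕ, 0 < d ∧ ∀ i < k, (bt c d i ↔ p i)

/-- tiling systems are coded -/
def N_CO : Prop := ∀ (Q : Type) [Finite Q] (U : Bool → Bool → Bool → Bool → Q → Prop)
  (Hh Vv : Q → Q → Prop), ∃ c d q : ℕ, 0 < d ∧ ∀ N, 0 < N → ((∃ t, GridF U Hh Vv N N t) ↔ TU c d q N)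

/-- the universal spectrum is a spectrum -/
def N_XS : Prop := IsSpectrum X0

/-- the universal spectrum is universal -/
def N_UR : Prop := ∀ S, IsSpectrum S → ∃ a r e : ℕ, 4 ≤ a ∧ 0 < r ∧ ∀ n, 0 < n →
  (n ∈ S ↔ a * n ^ r + e ∈ X0)

/-- pull-back -/
def N_PE : Prop := ∀ X : Set ℕ, IsSpectrum X → ∀ a r e : ℕ, 0 < a → 0 < r →
  IsSpectrum {n | 0 < n ∧ a * n ^ r + e ∈ X}

/-- if the complement of a set to which the universal spectrum is reduced by `g` is a spectrum, then the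
complements of all spectra are spectra -/
def N_RE : Prop := ∀ (A : Set ℕ) (g : ℕ → ℕ),
  (∀ X, IsSpectrum X → IsSpectrum {n | 4 ≤ n ∧ g n ∈ X}) → (∀ n, 4 ≤ n → 0 < g n) →
  (∀ n, 4 ≤ n → (n ∈ X0 ↔ g n ∈ A)) → IsSpectrum (posCompl A) →
    ∀ S, IsSpectrum S → IsSpectrum (posCompl S)

/-- spectra without their elements below four -/
def N_F4 : Prop := ∀ X : Set ℕ, IsSpectrum X → IsSpectrum {n | 4 ≤ n ∧ n ∈ X}

/-- one formula for planar graphs -/
def N_OP : Prop := ∃ φ : G2, IsSpectrum (posCompl (specPl φ)) ↔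
  ∀ S, IsSpectrum S → IsSpectrum (posCompl S)

/-- one formula without counting for two linear orders -/
def N_OS : Prop := ∃ φ : C2, φ.NoCount ∧ φ.BinLt 4 ∧ (IsSpectrum (posCompl (specS φ)) ↔
  ∀ S, IsSpectrum S → IsSpectrum (posCompl S))

/-- one formula for two or more special relations -/
def N_OK : Prop := ∀ (l : ℕ) (τ : ℕ → Kd), 2 ≤ l → ∃ φ : C2,
  (IsSpectrum (posCompl (specK l τ φ)) ↔ ∀ S, IsSpectrum S → IsSpectrum (posCompl S))

/-- reductions of all spectra are given by polynomials -/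
def N_PO : Prop := ∀ (l : ℕ) (τ : ℕ → Kd), 2 ≤ l → ∀ S, IsSpectrum S →
  ∃ (φ : C2) (p : Polynomial ℤ), ∀ n : ℕ, 0 < n →
    ∃ m : ℕ, (m : ℤ) = p.eval (n : ℤ) ∧ n ≤ m ∧ (n ∈ S ↔ m ∈ specK l τ φ)

end Pool.Agent.H8.UN
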