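import Pool.Agent.H8.UN.Targets
import Pool.Agent.H8.VR.Blk
import Pool.Agent.H58.TW.FA
import Pool.Agent.H69.Mt.Norm

/-!
# The universal spectrum is a spectrum
-/

set_option autoImplicit false

namespace Pool.Agent.H8.UN

open Pool.Agent.H69.Sp Pool.Agent.H69.Mt Pool.Agent.H16.TO Pool.Agent.H8.PL Pool.Agent.H8.DI
open Pool.Agent.H8.PU Pool.Agent.H8.VR

/-- the coded condition with the number `3 (i + q j) + r`, computed below `N` -/
def BI (N c d q i j r : ℕ) : Prop :=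
  ∃ a, a < N ∧ ∃ b, b < N ∧ ∃ w, w < N ∧ ∃ e, e < N ∧ ∃ u, u < N ∧ ∃ f, f < N ∧ ∃ g, g < N ∧
    ∃ h, h < N ∧ ∃ k, k < N ∧ q * j = a ∧ i + a = b ∧ w = 3 ∧ w * b = e ∧ u = r + 1 ∧ e + u = f ∧
      f * d = g ∧ h = g + 1 ∧ h * k = c

theorem fd_bi (r : ℕ) : FD (fun N _ v => BI N (v 2) (v 3) (v 4) (v 10) (v 11) r) := by
  refine (FD.ex 20 (FD.ex 21 (FD.ex 22 (FD.ex 23 (FD.ex 24 (FD.ex 25 (FD.ex 26 (FD.ex 27 (FD.ex 28
    ((FD.mul 4 11 20).and ((FD.add 10 20 21).and ((FD.num 3 22).and ((FD.mul 22 21 23).and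
      ((FD.num (r + 1) 24).and ((FD.add 23 24 25).and ((FD.mul 25 3 26).and ((FD.succ 26 27).and
        (FD.mul 27 28 2)))))))))))))))))).congr fun N E v hv => ?_
  simp only [Function.update_self, Function.update_of_ne, ne_eq, not_false_eq_true,
    Nat.reduceEqDiff, BI]

theorem bi_iff {N c d q i j r : ℕ} (h1 : (3 * (i + q * j) + r + 1) * d + 1 < N) (h2 : c < N)
    (h3 : 3 * (i + q * j) + r + 3 < N) : BI N c d q i j r ↔ bt c d (3 * (i + q * j) + r) := by
  unfold BI bt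
  constructor
  · rintro ⟨a, _, b, _, w, _, e, _, u, _, f, _, g, _, h, _, k, _, e1, e2, e3, e4, e5, e6, e7, e8,
      e9⟩
    refine ⟨k, ?_⟩
    rw [← e9, e8, ← e7, ← e6, e5, ← e4, e3, ← e2, ← e1]
    ring
  · rintro ⟨k, hk⟩
    have e1 : 1 + (3 * (i + q * j) + r + 1) * d = (3 * (i + q * j) + r + 1) * d + 1 := by ring
    by_cases hc : c = 0
    · exact ⟨q * j, by omega, i + q * j, by omega, 3, by omega, 3 * (i + q * j), by omega, r + 1,
        by omega, 3 * (i + q * j) + (r + 1), by omega, (3 * (i + q * j) + (r + 1)) * d,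
        by rw [← add_assoc]; omega, (3 * (i + q * j) + (r + 1)) * d + 1,
        by rw [← add_assoc]; omega, 0, by omega, rfl, rfl, rfl, rfl, rfl, rfl, rfl, rfl,
        by rw [hc, mul_zero]⟩
    · have h4 : k ≤ c := by
        rw [hk]
        exact Nat.le_mul_of_pos_left k (by omega)
      exact ⟨q * j, by omega, i + q * j, by omega, 3, by omega, 3 * (i + q * j), by omega, r + 1,
        by omega, 3 * (i + q * j) + (r + 1), by omega, (3 * (i + q * j) + (r + 1)) * d,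
        by rw [← add_assoc]; omega, (3 * (i + q * j) + (r + 1)) * d + 1,
        by rw [← add_assoc]; omega, k, by omega, rfl, rfl, rfl, rfl, rfl, rfl, rfl, rfl,
        by rw [hk, ← add_assoc, e1]⟩

/-- the pattern of the cell `(x, y)` -/
def Pt (K x y : ℕ) (p : Bool × Bool × Bool × Bool) : Prop :=
  (x = 0 ↔ p.1 = true) ∧ (K = x + 1 ↔ p.2.1 = true) ∧ (y = 0 ↔ p.2.2.1 = true) ∧
    (K = y + 1 ↔ p.2.2.2 = true)

/-- one cell -/
def CA (N : ℕ) (E : ℕ → List ℕ → Prop) (c d q K x y : ℕ) : Prop :=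
  ∃ i, i < N ∧ ((i < q ∧ E 0 [x, y, i]) ∧ ∀ p : Bool × Bool × Bool × Bool, Pt K x y p →
    ∃ j, j < N ∧ j = bn p.1 p.2.1 p.2.2.1 p.2.2.2 ∧ BI N c d q i j 2)

/-- the cells -/
def BA (N : ℕ) (E : ℕ → List ℕ → Prop) (c d q K : ℕ) : Prop :=
  ∀ x, x < N → ∀ y, y < N → (x < K → y < K → CA N E c d q K x y)

theorem fd_ba : FD (fun N E v => BA N E (v 2) (v 3) (v 4) (v 5)) := by
  have h1 : FD (fun N E v => ∀ p : Bool × Bool × Bool × Bool, Pt (v 5) (v 8) (v 9) p →
      ∃ j, j < N ∧ j = bn p.1 p.2.1 p.2.2.1 p.2.2.2 ∧ BI N (v 2) (v 3) (v 4) (v 10) j 2) := by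
    refine (H58.TW.pf_fi (Bool × Bool × Bool × Bool) _ fun p => ?_).1
    refine (((FD.num 0 8).iff (FD.const (p.1 = true))).and (((FD.succ 8 5).iff
      (FD.const (p.2.1 = true))).and (((FD.num 0 9).iff (FD.const (p.2.2.1 = true))).and
      ((FD.succ 9 5).iff (FD.const (p.2.2.2 = true)))))).imp ((FD.ex 11
        ((FD.num (bn p.1 p.2.1 p.2.2.1 p.2.2.2) 11).and (fd_bi 2))).congr fun N E v hv => ?_)
    simp only [Function.update_self, Function.update_of_ne, ne_eq, not_false_eq_true,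
      Nat.reduceEqDiff]
  refine (FD.all 8 (FD.all 9 ((FD.lt 8 5).imp ((FD.lt 9 5).imp
    (FD.ex 10 (((FD.lt 10 4).and (FD.par 0 [8, 9, 10])).and h1)))))).congr fun N E v hv => ?_
  simp only [Function.update_self, Function.update_of_ne, ne_eq, not_false_eq_true,
    Nat.reduceEqDiff, BA, CA, List.map_cons, List.map_nil]

/-- the tiles are unique -/
def BB (N : ℕ) (E : ℕ → List ℕ → Prop) : Prop :=
  ∀ x, x < N → ∀ y, y < N → ∀ i, i < N → ∀ j, j < N → (E 0 [x, y, i] → E 0 [x, y, j] → i = j)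

theorem fd_bb : FD (fun N E _ => BB N E) := by
  refine (FD.all 8 (FD.all 9 (FD.all 10 (FD.all 11 ((FD.par 0 [8, 9, 10]).imp
    ((FD.par 0 [8, 9, 11]).imp (FD.eq 10 11))))))).congr fun N E v hv => ?_
  simp only [Function.update_self, Function.update_of_ne, ne_eq, not_false_eq_true,
    Nat.reduceEqDiff, BB, List.map_cons, List.map_nil]

/-- horizontal neighbours -/
def BH (N : ℕ) (E : ℕ → List ℕ → Prop) (c d q K : ℕ) : Prop :=
  ∀ x, x < N → ∀ y, y < N → ∀ z, z < N → ∀ i, i < N → ∀ j, j < N → (z = x + 1 → z < K → y < K →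
    E 0 [x, y, i] → E 0 [z, y, j] → BI N c d q i j 0)

theorem fd_bh : FD (fun N E v => BH N E (v 2) (v 3) (v 4) (v 5)) := by
  refine (FD.all 8 (FD.all 9 (FD.all 12 (FD.all 10 (FD.all 11 ((FD.succ 8 12).imp
    ((FD.lt 12 5).imp ((FD.lt 9 5).imp ((FD.par 0 [8, 9, 10]).imp ((FD.par 0 [12, 9, 11]).imp
      (fd_bi 0))))))))))).congr fun N E v hv => ?_
  simp only [Function.update_self, Function.update_of_ne, ne_eq, not_false_eq_true,
    Nat.reduceEqDiff, BH, List.map_cons, List.map_nil]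

/-- vertical neighbours -/
def BV (N : ℕ) (E : ℕ → List ℕ → Prop) (c d q K : ℕ) : Prop :=
  ∀ x, x < N → ∀ y, y < N → ∀ z, z < N → ∀ i, i < N → ∀ j, j < N → (z = y + 1 → z < K → x < K →
    E 0 [x, y, i] → E 0 [x, z, j] → BI N c d q i j 1)

theorem fd_bv : FD (fun N E v => BV N E (v 2) (v 3) (v 4) (v 5)) := by
  refine (FD.all 8 (FD.all 9 (FD.all 12 (FD.all 10 (FD.all 11 ((FD.succ 9 12).imp
    ((FD.lt 12 5).imp ((FD.lt 8 5).imp ((FD.par 0 [8, 9, 10]).imp ((FD.par 0 [8, 12, 11]).imp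
      (fd_bi 1))))))))))).congr fun N E v hv => ?_
  simp only [Function.update_self, Function.update_of_ne, ne_eq, not_false_eq_true,
    Nat.reduceEqDiff, BV, List.map_cons, List.map_nil]

/-- the whole condition -/
def PX (N : ℕ) (E : ℕ → List ℕ → Prop) (m : ℕ) : Prop :=
  ∃ c, c < N ∧ ∃ d, d < N ∧ ∃ q, q < N ∧ ∃ K, K < N ∧ ∃ a, a < N ∧ ∃ e, e < N ∧ ∃ f, f < N ∧
    ∃ M, M < N ∧ ∃ M2, M2 < N ∧ a = Nat.pair c d ∧ e = Nat.pair a q ∧ f = e + 1 ∧ f * K = M ∧
      M * M = M2 ∧ M2 + e = m ∧ ¬ K = 0 ∧ BA N E c d q K ∧ BB N E ∧ BH N E c d q K ∧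
        BV N E c d q K

theorem fd_px : FD (fun N E v => PX N E (v 1)) := by
  refine (FD.ex 2 (FD.ex 3 (FD.ex 4 (FD.ex 5 (FD.ex 6 (FD.ex 7 (FD.ex 13 (FD.ex 14 (FD.ex 15
    ((fd_pair 2 3 6).and ((fd_pair 6 4 7).and ((FD.succ 7 13).and ((FD.mul 13 5 14).and
      ((FD.mul 14 14 15).and ((FD.add 15 7 1).and ((FD.num 0 5).not.and (fd_ba.and (fd_bb.and
        (fd_bh.and fd_bv))))))))))))))))))).congr fun N E v hv => ?_
  simp only [Function.update_self, Function.update_of_ne, ne_eq, not_false_eq_true,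
    OfNat.one_ne_ofNat, Nat.reduceEqDiff, PX]

theorem bn_lt (a b c d : Bool) : bn a b c d < 16 := by
  cases a <;> cases b <;> cases c <;> cases d <;> decide

theorem xs_bound {m c d q i j r : ℕ} (hm : 2 ≤ m) (hc : c ≤ m) (hd : d ≤ m) (hq : q ≤ m)
    (hi : i ≤ m) (hj : j ≤ m ∨ j ≤ 15) (hr : r ≤ 2) : BI ((m ^ 2 ^ 1) ^ 8) c d q i j r ↔
      bt c d (3 * (i + q * j) + r) := by
  have hj' : j ≤ m + 15 := by omega
  have h1 : q * j ≤ m * (m + 15) := Nat.mul_le_mul hq hj'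
  have h2 : (3 * (i + q * j) + r + 1) * d ≤ (3 * (m + m * (m + 15)) + 3) * m :=
    Nat.mul_le_mul (by omega) hd
  have h3 : (m ^ 2 ^ 1) ^ 8 = m ^ 3 * m ^ 13 := by ring
  have h4 : 2 ^ 13 ≤ m ^ 13 := Nat.pow_le_pow_left hm 13
  have h5 : m ^ 3 * 2 ^ 13 ≤ m ^ 3 * m ^ 13 := Nat.mul_le_mul_left _ h4
  have h6 : (3 * (m + m * (m + 15)) + 3) * m = 3 * m ^ 3 + 48 * m ^ 2 + 3 * m := by ring
  have h7 : m ^ 2 ≤ m ^ 3 := Nat.pow_le_pow_right (by omega) (by norm_num)
  have h8 : m ≤ m ^ 3 := Nat.le_self_pow (by norm_num) m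
  have h9 : 8 ≤ m ^ 3 := Nat.pow_le_pow_left hm 3
  have h10 : m * (m + 15) = m ^ 2 + 15 * m := by ring
  refine bi_iff ?_ ?_ ?_
  · rw [h3]; omega
  · rw [h3]; omega
  · rw [h3]; omega

theorem xs_iff (m : ℕ) (hm : 2 ≤ m) : m ∈ X0 ↔ ∃ E, PX ((m ^ 2 ^ 1) ^ 8) E m := by
  classical
  have hN : m < (m ^ 2 ^ 1) ^ 8 := by
    have h3 : (m ^ 2 ^ 1) ^ 8 = m * m ^ 15 := by ring
    have h4 : 2 ^ 15 ≤ m ^ 15 := Nat.pow_le_pow_left hm 15
    rw [h3]
    calc m = m * 1 := (mul_one m).symm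
      _ < m * m ^ 15 := Nat.mul_lt_mul_of_pos_left (by omega) (by omega)
  have key : ∀ c d q K : ℕ, 0 < K → m = ((cde c d q + 1) * K) ^ 2 + cde c d q →
      c ≤ m ∧ d ≤ m ∧ q ≤ m ∧ K ≤ m ∧ Nat.pair c d ≤ m ∧ cde c d q ≤ m ∧ cde c d q + 1 ≤ m ∧
        (cde c d q + 1) * K ≤ m ∧ (cde c d q + 1) * K * ((cde c d q + 1) * K) ≤ m := by
    intro c d q K hK h
    have a1 : Nat.pair c d ≤ cde c d q := Nat.left_le_pair _ _
    have a2 : q ≤ cde c d q := Nat.right_le_pair _ _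
    have a3 : c ≤ Nat.pair c d := Nat.left_le_pair _ _
    have a4 : d ≤ Nat.pair c d := Nat.right_le_pair _ _
    set e := cde c d q with he
    have a5 : (e + 1) * K * ((e + 1) * K) = ((e + 1) * K) ^ 2 := by ring
    have a6 : e + 1 ≤ (e + 1) * K := Nat.le_mul_of_pos_right _ hK
    have a7 : K ≤ (e + 1) * K := Nat.le_mul_of_pos_left _ (by omega)
    have a8 : (e + 1) * K ≤ (e + 1) * K * ((e + 1) * K) := Nat.le_mul_of_pos_left _ (by omega)
    omega
  constructor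
  · rintro ⟨c, d, q, K, hK, hx, t, ht, g1, g2, g3⟩
    obtain ⟨k1, k2, k3, k4, k5, k6, k7, k8, k9⟩ := key c d q K hK hx
    refine ⟨fun i l => i = 0 ∧ ∃ x y, l = [x, y, t x y], c, by omega, d, by omega, q, by omega, K,
      by omega, _, by omega, cde c d q, by omega, _, by omega, _, by omega, _, by omega, rfl, rfl,
      rfl, rfl, rfl, ?_, by omega, ?_, ?_, ?_, ?_⟩
    · rw [hx]; ring
    · intro x _ y _ hxK hyK
      have htq := ht x hxK y hyK
      refine ⟨t x y, by omega, ⟨htq, rfl, x, y, rfl⟩, ?_⟩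
      rintro ⟨z, l, b, u⟩ ⟨p1, p2, p3, p4⟩
      have hb := bn_lt z l b u
      refine ⟨bn z l b u, ?_, rfl, ?_⟩
      · have : 2 ^ 16 ≤ (m ^ 2 ^ 1) ^ 8 := by
          rw [← pow_mul]
          exact Nat.pow_le_pow_left hm 16
        omega
      · rw [xs_bound hm k1 k2 k3 (by omega) (by omega) (by norm_num)]
        have h1 := g1 x hxK y hyK
        have e1 : decide (x = 0) = z := by
          cases z <;> simp_all
        have e2 : decide (x + 1 = K) = l := by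
          cases l
          · simp only [decide_eq_false_iff_not]
            intro h
            exact absurd (p2.mp h.symm) (by simp)
          · simp only [decide_eq_true_eq]
            exact (p2.mpr rfl).symm
        have e3 : decide (y = 0) = b := by
          cases b <;> simp_all
        have e4 : decide (y + 1 = K) = u := by
          cases u
          · simp only [decide_eq_false_iff_not]
            intro h
            exact absurd (p4.mp h.symm) (by simp)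
          · simp only [decide_eq_true_eq]
            exact (p4.mpr rfl).symm
        rw [e1, e2, e3, e4] at h1
        exact h1
    · rintro x _ y _ i _ j _ ⟨_, x1, y1, h1⟩ ⟨_, x2, y2, h2⟩
      simp only [List.cons.injEq, and_true] at h1 h2
      obtain ⟨rfl, rfl, rfl⟩ := h1
      obtain ⟨rfl, rfl, rfl⟩ := h2
      rfl
    · rintro x _ y _ z _ i _ j _ rfl hz hy ⟨_, x1, y1, h1⟩ ⟨_, x2, y2, h2⟩
      simp only [List.cons.injEq, and_true] at h1 h2
      obtain ⟨rfl, rfl, rfl⟩ := h1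
      obtain ⟨rfl, rfl, rfl⟩ := h2
      have t1 := ht x (by omega) y hy
      have t2 := ht (x + 1) hz y hy
      rw [xs_bound hm k1 k2 k3 (by omega) (by omega) (by norm_num)]
      exact g2 x y hz hy
    · rintro x _ y _ z _ i _ j _ rfl hz hy ⟨_, x1, y1, h1⟩ ⟨_, x2, y2, h2⟩
      simp only [List.cons.injEq, and_true] at h1 h2
      obtain ⟨rfl, rfl, rfl⟩ := h1
      obtain ⟨rfl, rfl, rfl⟩ := h2
      have t1 := ht x hy y (by omega)
      have t2 := ht x hy (y + 1) hz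
      rw [xs_bound hm k1 k2 k3 (by omega) (by omega) (by norm_num)]
      exact g3 x y hy hz
  · rintro ⟨E, c, _, d, _, q, _, K, hKN, a, _, e, _, f, _, M, _, M2, _, e1, e2, e3, e4, e5, e6, hK,
      hA, hB, hH, hV⟩
    have hx : m = ((cde c d q + 1) * K) ^ 2 + cde c d q := by
      have : e = cde c d q := by rw [e2, e1]; rfl
      rw [← e6, ← e5, ← e4, e3, this]; ring
    obtain ⟨k1, k2, k3, k4, k5, k6, k7, k8, k9⟩ := key c d q K (by omega) hx
    have hC : ∀ x y, x < K → y < K → CA ((m ^ 2 ^ 1) ^ 8) E c d q K x y := fun x y h h' =>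
      hA x (by omega) y (by omega) h h'
    let t : ℕ → ℕ → ℕ := fun x y => if h : x < K ∧ y < K then (hC x y h.1 h.2).choose else 0
    have ht : ∀ x y, x < K → y < K → t x y < (m ^ 2 ^ 1) ^ 8 ∧ ((t x y < q ∧ E 0 [x, y, t x y]) ∧
        ∀ p : Bool × Bool × Bool × Bool, Pt K x y p →
          ∃ j, j < (m ^ 2 ^ 1) ^ 8 ∧ j = bn p.1 p.2.1 p.2.2.1 p.2.2.2 ∧
            BI ((m ^ 2 ^ 1) ^ 8) c d q (t x y) j 2) := by
      intro x y h h'
      have e0 : t x y = (hC x y h h').choose := dif_pos ⟨h, h'⟩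
      rw [e0]
      exact (hC x y h h').choose_spec
    refine ⟨c, d, q, K, by omega, hx, t, fun x h y h' => (ht x y h h').2.1.1, ?_, ?_, ?_⟩
    · intro x h y h'
      obtain ⟨h1, h2, h3⟩ := ht x y h h'
      obtain ⟨j, _, rfl, h4⟩ := h3 (decide (x = 0), decide (x + 1 = K), decide (y = 0),
        decide (y + 1 = K)) ⟨by simp, by simp [eq_comm], by simp, by simp [eq_comm]⟩
      have hb := bn_lt (decide (x = 0)) (decide (x + 1 = K)) (decide (y = 0)) (decide (y + 1 = K))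
      exact (xs_bound hm k1 k2 k3 (by omega) (Or.inr (by omega)) (by norm_num)).mp h4
    · intro x y h h'
      obtain ⟨h1, ⟨h2, h3⟩, -⟩ := ht x y (by omega) h'
      obtain ⟨g1, ⟨g2, g3⟩, -⟩ := ht (x + 1) y h h'
      exact (xs_bound hm k1 k2 k3 (by omega) (Or.inl (by omega)) (by norm_num)).mp
        (hH x (by omega) y (by omega) (x + 1) (by omega) _ h1 _ g1 rfl h h' h3 g3)
    · intro x y h h'
      obtain ⟨h1, ⟨h2, h3⟩, -⟩ := ht x y h (by omega)
      obtain ⟨g1, ⟨g2, g3⟩, -⟩ := ht x (y + 1) h h'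
      exact (xs_bound hm k1 k2 k3 (by omega) (Or.inl (by omega)) (by norm_num)).mp
        (hV x (by omega) y (by omega) (y + 1) (by omega) _ h1 _ g1 rfl h' h h3 g3)

theorem pf_xs : N_XS := by
  refine wrapT (P := PX) fd_px.ed ?_ 1 xs_iff
  rintro ⟨c, d, q, K, hK, h, -⟩
  have h1 : 0 < (cde c d q + 1) * K := Nat.mul_pos (by omega) hK
  have h2 : 0 < ((cde c d q + 1) * K) ^ 2 := by positivity
  omega

end Pool.Agent.H8.UN
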